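import Pool.Agent.Helper26.Er.Defs

/-!
# E3a: the inequality of Caccioppoli for quotients of solutions of `Δu + u = 0`
-/

set_option autoImplicit false
open MeasureTheory Filter Topology
open scoped ContDiff

namespace Pool.Agent.Helper80.Er

open Pool.Agent.W745.RW (lap dx dy)
open Pool.Agent.Helper26.Er
open Complex (I)

/-! ### Real numbers -/

lemma term_bound {U W a c s Z ε : ℝ} (hε : 0 < ε) (h : |W| ≤ |U|) :
    |(U * a - W * c) * (2 * Z * s * (U * W / (U ^ 2 + ε)) +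
      Z ^ 2 * ((U * a - W * c) / (U ^ 2 + ε) + 2 * ε * W * c / (U ^ 2 + ε) ^ 2))| ≤
      |Z| * (2 * |s| * |U| * (|a| + |c|) + |Z| * (|a| + |c|) ^ 2 + 2 * |Z| * (|a| + |c|) * |c|) := by
  have hd : 0 < U ^ 2 + ε := by positivity
  obtain ⟨x, hx⟩ : ∃ x, x = U * a - W * c := ⟨_, rfl⟩
  obtain ⟨d, hdd⟩ : ∃ d, d = U ^ 2 + ε := ⟨_, rfl⟩
  obtain ⟨k, hk⟩ : ∃ k, k = |a| + |c| := ⟨_, rfl⟩
  rw [← hx, ← hdd, ← hk]
  rw [← hdd] at hd
  have hk0 : 0 ≤ k := by rw [hk]; positivity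
  have hck : |c| ≤ k := by rw [hk]; linarith [abs_nonneg a]
  have hxk : |x| ≤ |U| * k := by
    rw [hx, hk]
    calc |U * a - W * c| ≤ |U * a| + |W * c| := abs_sub _ _
      _ = |U| * |a| + |W| * |c| := by rw [abs_mul, abs_mul]
      _ ≤ |U| * |a| + |U| * |c| := by
          have := mul_le_mul_of_nonneg_right h (abs_nonneg c)
          linarith
      _ = |U| * (|a| + |c|) := by ring
  have hU : |U| ^ 2 ≤ d := by rw [hdd, sq_abs]; linarith
  have hUε : ε * |U| ^ 2 ≤ d ^ 2 := by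
    rw [hdd, sq_abs]
    nlinarith [sq_nonneg U, sq_nonneg (U ^ 2 - ε), sq_nonneg (U ^ 2)]
  -- the three terms
  have t1 : |x * (2 * Z * s * (U * W / d))| ≤ |Z| * (2 * |s| * |U| * k) := by
    have e : |x * (2 * Z * s * (U * W / d))| = 2 * |Z| * |s| * (|x| * |U| * |W| / d) := by
      simp only [abs_mul, abs_div, abs_of_pos hd, abs_two]
      ring
    rw [e]
    have h1 : |x| * |U| * |W| / d ≤ |U| * k := by
      rw [div_le_iff₀ hd]
      calc |x| * |U| * |W| ≤ (|U| * k) * |U| * |U| := by gcongr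
        _ = |U| * k * |U| ^ 2 := by ring
        _ ≤ |U| * k * d := by gcongr
    calc 2 * |Z| * |s| * (|x| * |U| * |W| / d) ≤ 2 * |Z| * |s| * (|U| * k) := by gcongr
      _ = _ := by ring
  have t2 : |x * (Z ^ 2 * (x / d))| ≤ |Z| * (|Z| * k ^ 2) := by
    have e : |x * (Z ^ 2 * (x / d))| = |Z| ^ 2 * (|x| ^ 2 / d) := by
      simp only [abs_mul, abs_div, abs_pow, abs_of_pos hd]
      ring
    rw [e]
    have h1 : |x| ^ 2 / d ≤ k ^ 2 := by
      rw [div_le_iff₀ hd]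
      calc |x| ^ 2 ≤ (|U| * k) ^ 2 := by gcongr
        _ = k ^ 2 * |U| ^ 2 := by ring
        _ ≤ k ^ 2 * d := by gcongr
    calc |Z| ^ 2 * (|x| ^ 2 / d) ≤ |Z| ^ 2 * k ^ 2 := by gcongr
      _ = _ := by ring
  have t3 : |x * (Z ^ 2 * (2 * ε * W * c / d ^ 2))| ≤ |Z| * (2 * |Z| * k * |c|) := by
    have e : |x * (Z ^ 2 * (2 * ε * W * c / d ^ 2))| =
        2 * |Z| ^ 2 * |c| * (|x| * ε * |W| / d ^ 2) := by
      simp only [abs_mul, abs_div, abs_pow, abs_of_pos hd, abs_of_pos hε, abs_two]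
      ring
    rw [e]
    have h1 : |x| * ε * |W| / d ^ 2 ≤ k := by
      rw [div_le_iff₀ (by positivity)]
      calc |x| * ε * |W| ≤ (|U| * k) * ε * |U| := by gcongr
        _ = k * (ε * |U| ^ 2) := by ring
        _ ≤ k * d ^ 2 := by gcongr
    calc 2 * |Z| ^ 2 * |c| * (|x| * ε * |W| / d ^ 2) ≤ 2 * |Z| ^ 2 * |c| * k := by gcongr
      _ = _ := by ring
  have e : x * (2 * Z * s * (U * W / d) + Z ^ 2 * (x / d + 2 * ε * W * c / d ^ 2)) =
      x * (2 * Z * s * (U * W / d)) + x * (Z ^ 2 * (x / d)) +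
        x * (Z ^ 2 * (2 * ε * W * c / d ^ 2)) := by ring
  rw [e]
  calc |x * (2 * Z * s * (U * W / d)) + x * (Z ^ 2 * (x / d)) +
        x * (Z ^ 2 * (2 * ε * W * c / d ^ 2))|
      ≤ |x * (2 * Z * s * (U * W / d))| + |x * (Z ^ 2 * (x / d))| +
        |x * (Z ^ 2 * (2 * ε * W * c / d ^ 2))| := abs_add_three _ _ _
    _ ≤ |Z| * (2 * |s| * |U| * k) + |Z| * (|Z| * k ^ 2) + |Z| * (2 * |Z| * k * |c|) := by
        linarith
    _ = _ := by ring

lemma term_tendsto {U W a c s Z : ℝ} (h : |W| ≤ |U|) {e : ℕ → ℝ}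
    (he : Tendsto e atTop (𝓝 0)) :
    Tendsto (fun n => (U * a - W * c) * (2 * Z * s * (U * W / (U ^ 2 + e n)) +
      Z ^ 2 * ((U * a - W * c) / (U ^ 2 + e n) + 2 * e n * W * c / (U ^ 2 + e n) ^ 2))) atTop
      (𝓝 (Z ^ 2 * ((U * a - W * c) ^ 2 / U ^ 2) + 2 * Z * (W / U) * ((U * a - W * c) * s))) := by
  by_cases hU : U = 0
  · have hW : W = 0 := by
      rw [hU, abs_zero] at h
      exact abs_nonpos_iff.1 h
    subst hU
    subst hW
    simp
  · have hU2 : U ^ 2 ≠ 0 := pow_ne_zero 2 hU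
    have h1 : Tendsto (fun n => U ^ 2 + e n) atTop (𝓝 (U ^ 2)) := by
      simpa using tendsto_const_nhds.add he
    have h2 : Tendsto (fun n => (U * a - W * c) * (2 * Z * s * (U * W / (U ^ 2 + e n)) +
        Z ^ 2 * ((U * a - W * c) / (U ^ 2 + e n) + 2 * e n * W * c / (U ^ 2 + e n) ^ 2))) atTop
        (𝓝 ((U * a - W * c) * (2 * Z * s * (U * W / (U ^ 2)) +
          Z ^ 2 * ((U * a - W * c) / (U ^ 2) + 2 * 0 * W * c / (U ^ 2) ^ 2)))) := by
      refine Tendsto.const_mul _ (Tendsto.add (Tendsto.const_mul _ ?_)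
        (Tendsto.const_mul _ (Tendsto.add ?_ ?_)))
      · exact tendsto_const_nhds.div h1 hU2
      · exact tendsto_const_nhds.div h1 hU2
      · exact (((he.const_mul 2).mul_const W).mul_const c).div (h1.pow 2) (pow_ne_zero 2 hU2)
    have e1 : Z ^ 2 * ((U * a - W * c) ^ 2 / U ^ 2) + 2 * Z * (W / U) * ((U * a - W * c) * s) =
        (U * a - W * c) * (2 * Z * s * (U * W / (U ^ 2)) +
          Z ^ 2 * ((U * a - W * c) / (U ^ 2) + 2 * 0 * W * c / (U ^ 2) ^ 2)) := by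
      field_simp
      ring
    rw [e1]
    exact h2

/-! ### Derivatives -/

lemma ld {f : ℂ → ℝ} (hf : ContDiff ℝ ∞ f) (z v : ℂ) :
    HasDerivAt (fun t : ℝ => f (z + t • v)) (fderiv ℝ f z v) 0 :=
  ((hf.differentiable (by simp)) z).hasFDerivAt.hasLineDerivAt v

lemma smooth_fderiv {f : ℂ → ℝ} (hf : ContDiff ℝ ∞ f) (v : ℂ) :
    ContDiff ℝ ∞ (fun z => fderiv ℝ f z v) :=
  (hf.fderiv_right (m := ∞) (by simp)).clm_apply contDiff_const

/-- the field `F` in the direction `v` -/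
noncomputable def FF (u w : ℂ → ℝ) (v z : ℂ) : ℝ :=
  u z * fderiv ℝ w z v - w z * fderiv ℝ u z v

/-- the test function -/
noncomputable def ph (u w ζ : ℂ → ℝ) (ε : ℝ) (z : ℂ) : ℝ :=
  ζ z ^ 2 * (u z * w z / (u z ^ 2 + ε))

lemma smooth_FF {u w : ℂ → ℝ} (hu : ContDiff ℝ ∞ u) (hw : ContDiff ℝ ∞ w) (v : ℂ) :
    ContDiff ℝ ∞ (FF u w v) :=
  (hu.mul (smooth_fderiv hw v)).sub (hw.mul (smooth_fderiv hu v))

lemma smooth_ph {u w ζ : ℂ → ℝ} (hu : ContDiff ℝ ∞ u) (hw : ContDiff ℝ ∞ w)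
    (hζ : ContDiff ℝ ∞ ζ) {ε : ℝ} (hε : 0 < ε) : ContDiff ℝ ∞ (ph u w ζ ε) :=
  (hζ.pow 2).mul ((hu.mul hw).div ((hu.pow 2).add contDiff_const)
    fun z => by positivity)

lemma fderiv_FF {u w : ℂ → ℝ} (hu : ContDiff ℝ ∞ u) (hw : ContDiff ℝ ∞ w) (v z : ℂ) :
    fderiv ℝ (FF u w v) z v = u z * fderiv ℝ (fun z => fderiv ℝ w z v) z v -
      w z * fderiv ℝ (fun z => fderiv ℝ u z v) z v := by
  have h1 := ld (smooth_FF hu hw v) z v
  have h2 := ((ld hu z v).mul (ld (smooth_fderiv hw v) z v)).sub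
    ((ld hw z v).mul (ld (smooth_fderiv hu v) z v))
  have h3 := h1.unique h2
  rw [h3]
  simp only [zero_smul, add_zero]
  ring

lemma fderiv_ph {u w ζ : ℂ → ℝ} (hu : ContDiff ℝ ∞ u) (hw : ContDiff ℝ ∞ w)
    (hζ : ContDiff ℝ ∞ ζ) {ε : ℝ} (hε : 0 < ε) (v z : ℂ) :
    fderiv ℝ (ph u w ζ ε) z v = 2 * ζ z * fderiv ℝ ζ z v * (u z * w z / (u z ^ 2 + ε)) +
      ζ z ^ 2 * ((u z * fderiv ℝ w z v - w z * fderiv ℝ u z v) / (u z ^ 2 + ε) +
        2 * ε * w z * fderiv ℝ u z v / (u z ^ 2 + ε) ^ 2) := by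
  have h1 := ld (smooth_ph hu hw hζ hε) z v
  have hne : u (z + (0 : ℝ) • v) ^ 2 + ε ≠ 0 := by positivity
  have h2 := ((ld hζ z v).pow 2).mul (((ld hu z v).mul (ld hw z v)).div
    (((ld hu z v).pow 2).add_const ε) hne)
  have h3 := h1.unique h2
  rw [h3]
  have hne' : u z ^ 2 + ε ≠ 0 := by positivity
  simp only [zero_smul, add_zero, Pi.mul_apply, Pi.pow_apply, Pi.div_apply]
  field_simp
  ring

lemma ibp {f φ : ℂ → ℝ} (hf : ContDiff ℝ ∞ f) (hφ : ContDiff ℝ ∞ φ) (hc : HasCompactSupport φ)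
    (v : ℂ) : ∫ z, f z * fderiv ℝ φ z v = - ∫ z, fderiv ℝ f z v * φ z := by
  have hc' : HasCompactSupport (fun z => fderiv ℝ φ z v) := hc.fderiv_apply ℝ v
  refine integral_mul_fderiv_eq_neg_fderiv_mul_of_integrable ?_ ?_ ?_
    (fun x _ => (hf.differentiable (by simp)) x) (fun x _ => (hφ.differentiable (by simp)) x)
  · exact ((smooth_fderiv hf v).continuous.mul hφ.continuous).integrable_of_hasCompactSupport
      hc.mul_left
  · exact (hf.continuous.mul (smooth_fderiv hφ v).continuous).integrable_of_hasCompactSupport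
      hc'.mul_left
  · exact (hf.continuous.mul hφ.continuous).integrable_of_hasCompactSupport hc.mul_left

lemma compact_ph {u w ζ : ℂ → ℝ} (hc : HasCompactSupport ζ) (ε : ℝ) :
    HasCompactSupport (ph u w ζ ε) := by
  refine hc.mono fun z hz => ?_
  rw [Function.mem_support] at hz ⊢
  intro h
  apply hz
  simp [ph, h]

lemma integral_zero {u w ζ : ℂ → ℝ} (hu : ContDiff ℝ ∞ u) (hw : ContDiff ℝ ∞ w)
    (eu : ∀ z, lap u z = - u z) (ew : ∀ z, lap w z = - w z)
    (hζ : ContDiff ℝ ∞ ζ) (hc : HasCompactSupport ζ) {ε : ℝ} (hε : 0 < ε) :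
    ∫ z, (FF u w 1 z * fderiv ℝ (ph u w ζ ε) z 1 + FF u w I z * fderiv ℝ (ph u w ζ ε) z I) = 0 := by
  have hφ := smooth_ph hu hw hζ hε
  have hcφ := compact_ph (u := u) (w := w) hc ε
  have i1 : ∀ v, Integrable (fun z => FF u w v z * fderiv ℝ (ph u w ζ ε) z v) := fun v =>
    ((smooth_FF hu hw v).continuous.mul (smooth_fderiv hφ v).continuous).integrable_of_hasCompactSupport
      (hcφ.fderiv_apply ℝ v).mul_left
  have i2 : ∀ v, Integrable (fun z => fderiv ℝ (FF u w v) z v * ph u w ζ ε z) := fun v =>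
    ((smooth_fderiv (smooth_FF hu hw v) v).continuous.mul hφ.continuous).integrable_of_hasCompactSupport
      hcφ.mul_left
  rw [integral_add (i1 1) (i1 I), ibp (smooth_FF hu hw 1) hφ hcφ 1, ibp (smooth_FF hu hw I) hφ hcφ I,
    ← neg_add, ← integral_add (i2 1) (i2 I), neg_eq_zero]
  refine integral_eq_zero_of_ae (Eventually.of_forall fun z => ?_)
  show fderiv ℝ (FF u w 1) z 1 * ph u w ζ ε z + fderiv ℝ (FF u w I) z I * ph u w ζ ε z = 0
  rw [fderiv_FF hu hw, fderiv_FF hu hw]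
  have e1 : fderiv ℝ (fun z => fderiv ℝ w z 1) z 1 + fderiv ℝ (fun z => fderiv ℝ w z I) z I =
      - w z := ew z
  have e2 : fderiv ℝ (fun z => fderiv ℝ u z 1) z 1 + fderiv ℝ (fun z => fderiv ℝ u z I) z I =
      - u z := eu z
  linear_combination (u z * ph u w ζ ε z) * e1 - (w z * ph u w ζ ε z) * e2

/-- the dominating function in one direction -/
noncomputable def bd (u w ζ : ℂ → ℝ) (v z : ℂ) : ℝ :=
  |ζ z| * (2 * |fderiv ℝ ζ z v| * |u z| * (|fderiv ℝ w z v| + |fderiv ℝ u z v|) +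
    |ζ z| * (|fderiv ℝ w z v| + |fderiv ℝ u z v|) ^ 2 +
    2 * |ζ z| * (|fderiv ℝ w z v| + |fderiv ℝ u z v|) * |fderiv ℝ u z v|)

lemma bd_integrable {u w ζ : ℂ → ℝ} (hu : ContDiff ℝ ∞ u) (hw : ContDiff ℝ ∞ w)
    (hζ : ContDiff ℝ ∞ ζ) (hc : HasCompactSupport ζ) (v : ℂ) : Integrable (bd u w ζ v) := by
  have c1 := (smooth_fderiv hu v).continuous.abs
  have c2 := (smooth_fderiv hw v).continuous.abs
  have c3 := (smooth_fderiv hζ v).continuous.abs
  have c4 := hu.continuous.abs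
  have c5 := hζ.continuous.abs
  refine Continuous.integrable_of_hasCompactSupport ?_ ?_
  · unfold bd
    fun_prop
  · refine hc.mono fun z hz => ?_
    rw [Function.mem_support] at hz ⊢
    intro h
    apply hz
    simp [bd, h]

/-- the limit of the integrands -/
noncomputable def L0 (u w ζ : ℂ → ℝ) (z : ℂ) : ℝ :=
  2 * ζ z * (w z / u z) * (FF u w 1 z * fderiv ℝ ζ z 1 + FF u w I z * fderiv ℝ ζ z I)

lemma GG_eq (u w : ℂ → ℝ) (z : ℂ) : GG u w z = (FF u w 1 z ^ 2 + FF u w I z ^ 2) / u z ^ 2 := rfl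

lemma limit_zero {u w ζ : ℂ → ℝ} (hu : ContDiff ℝ ∞ u) (hw : ContDiff ℝ ∞ w)
    (eu : ∀ z, lap u z = - u z) (ew : ∀ z, lap w z = - w z) (h : ∀ z, |w z| ≤ |u z|)
    (hζ : ContDiff ℝ ∞ ζ) (hc : HasCompactSupport ζ) :
    ∫ z, (ζ z ^ 2 * GG u w z + L0 u w ζ z) = 0 := by
  obtain ⟨e, he⟩ : ∃ e : ℕ → ℝ, e = fun n : ℕ => 1 / ((n : ℝ) + 1) := ⟨_, rfl⟩
  have he0 : ∀ n, 0 < e n := fun n => by rw [he]; positivity
  have het : Tendsto e atTop (𝓝 0) := by
    rw [he]; exact tendsto_one_div_add_atTop_nhds_zero_nat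
  have h0 : ∀ n, ∫ z, (FF u w 1 z * fderiv ℝ (ph u w ζ (e n)) z 1 +
      FF u w I z * fderiv ℝ (ph u w ζ (e n)) z I) = 0 := fun n =>
    integral_zero hu hw eu ew hζ hc (he0 n)
  have hlim : Tendsto (fun n => ∫ z, (FF u w 1 z * fderiv ℝ (ph u w ζ (e n)) z 1 +
      FF u w I z * fderiv ℝ (ph u w ζ (e n)) z I)) atTop
      (𝓝 (∫ z, (ζ z ^ 2 * GG u w z + L0 u w ζ z))) := by
    refine tendsto_integral_of_dominated_convergence (fun z => bd u w ζ 1 z + bd u w ζ I z)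
      (fun n => ?_) ((bd_integrable hu hw hζ hc 1).add (bd_integrable hu hw hζ hc I))
      (fun n => ?_) ?_
    · have hφ := smooth_ph hu hw hζ (he0 n)
      exact (((smooth_FF hu hw 1).continuous.mul (smooth_fderiv hφ 1).continuous).add
        ((smooth_FF hu hw I).continuous.mul (smooth_fderiv hφ I).continuous)).aestronglyMeasurable
    · refine Eventually.of_forall fun z => ?_
      rw [Real.norm_eq_abs]
      refine (abs_add_le _ _).trans (add_le_add ?_ ?_)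
      · rw [fderiv_ph hu hw hζ (he0 n)]
        exact term_bound (he0 n) (h z)
      · rw [fderiv_ph hu hw hζ (he0 n)]
        exact term_bound (he0 n) (h z)
    · refine Eventually.of_forall fun z => ?_
      have t1 := term_tendsto (a := fderiv ℝ w z 1) (c := fderiv ℝ u z 1) (s := fderiv ℝ ζ z 1)
        (Z := ζ z) (h z) het
      have t2 := term_tendsto (a := fderiv ℝ w z I) (c := fderiv ℝ u z I) (s := fderiv ℝ ζ z I)
        (Z := ζ z) (h z) het
      have t3 := t1.add t2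
      have e1 : ζ z ^ 2 * GG u w z + L0 u w ζ z =
          (ζ z ^ 2 * ((u z * fderiv ℝ w z 1 - w z * fderiv ℝ u z 1) ^ 2 / u z ^ 2) +
            2 * ζ z * (w z / u z) * ((u z * fderiv ℝ w z 1 - w z * fderiv ℝ u z 1) * fderiv ℝ ζ z 1)) +
          (ζ z ^ 2 * ((u z * fderiv ℝ w z I - w z * fderiv ℝ u z I) ^ 2 / u z ^ 2) +
            2 * ζ z * (w z / u z) *
              ((u z * fderiv ℝ w z I - w z * fderiv ℝ u z I) * fderiv ℝ ζ z I)) := by
        unfold GG L0 FF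
        ring
      rw [e1]
      refine t3.congr fun n => ?_
      rw [fderiv_ph hu hw hζ (he0 n), fderiv_ph hu hw hζ (he0 n)]
      rfl
  have h1 : Tendsto (fun _ : ℕ => (0 : ℝ)) atTop (𝓝 (∫ z, (ζ z ^ 2 * GG u w z + L0 u w ζ z))) := by
    refine hlim.congr fun n => h0 n
  exact tendsto_nhds_unique h1 tendsto_const_nhds

lemma FF_le {u w : ℂ → ℝ} (h : ∀ z, |w z| ≤ |u z|) (v z : ℂ) :
    |FF u w v z| ≤ |u z| * (|fderiv ℝ w z v| + |fderiv ℝ u z v|) := by
  unfold FF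
  calc |u z * fderiv ℝ w z v - w z * fderiv ℝ u z v|
      ≤ |u z * fderiv ℝ w z v| + |w z * fderiv ℝ u z v| := abs_sub _ _
    _ = |u z| * |fderiv ℝ w z v| + |w z| * |fderiv ℝ u z v| := by rw [abs_mul, abs_mul]
    _ ≤ |u z| * |fderiv ℝ w z v| + |u z| * |fderiv ℝ u z v| := by
        have := mul_le_mul_of_nonneg_right (h z) (abs_nonneg (fderiv ℝ u z v))
        linarith
    _ = _ := by ring

/-- a continuous bound of `GG` -/
noncomputable def BB (u w : ℂ → ℝ) (z : ℂ) : ℝ :=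
  (|fderiv ℝ w z 1| + |fderiv ℝ u z 1|) ^ 2 + (|fderiv ℝ w z I| + |fderiv ℝ u z I|) ^ 2

lemma GG_nonneg (u w : ℂ → ℝ) (z : ℂ) : 0 ≤ GG u w z := by
  unfold GG
  positivity

lemma GG_le {u w : ℂ → ℝ} (h : ∀ z, |w z| ≤ |u z|) (z : ℂ) : GG u w z ≤ BB u w z := by
  rw [GG_eq]
  by_cases hU : u z = 0
  · rw [hU]
    simp only [ne_eq, OfNat.ofNat_ne_zero, not_false_eq_true, zero_pow, div_zero]
    unfold BB
    positivity
  · rw [div_le_iff₀ (by positivity)]
    have h1 : FF u w 1 z ^ 2 ≤ (|u z| * (|fderiv ℝ w z 1| + |fderiv ℝ u z 1|)) ^ 2 := by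
      rw [← sq_abs (FF u w 1 z)]
      exact pow_le_pow_left₀ (abs_nonneg _) (FF_le h 1 z) 2
    have h2 : FF u w I z ^ 2 ≤ (|u z| * (|fderiv ℝ w z I| + |fderiv ℝ u z I|)) ^ 2 := by
      rw [← sq_abs (FF u w I z)]
      exact pow_le_pow_left₀ (abs_nonneg _) (FF_le h I z) 2
    rw [mul_pow, sq_abs] at h1 h2
    unfold BB
    linarith

lemma GG_meas {u w : ℂ → ℝ} (hu : ContDiff ℝ ∞ u) (hw : ContDiff ℝ ∞ w) : Measurable (GG u w) := by
  have e : GG u w = fun z => (FF u w 1 z ^ 2 + FF u w I z ^ 2) / u z ^ 2 := rfl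
  rw [e]
  have c1 := (smooth_FF hu hw 1).continuous.measurable
  have c2 := (smooth_FF hu hw I).continuous.measurable
  have c3 := hu.continuous.measurable
  exact ((c1.pow_const 2).add (c2.pow_const 2)).div (c3.pow_const 2)

lemma BB_cont {u w : ℂ → ℝ} (hu : ContDiff ℝ ∞ u) (hw : ContDiff ℝ ∞ w) :
    Continuous (BB u w) := by
  have c1 := (smooth_fderiv hu 1).continuous.abs
  have c2 := (smooth_fderiv hw 1).continuous.abs
  have c3 := (smooth_fderiv hu I).continuous.abs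
  have c4 := (smooth_fderiv hw I).continuous.abs
  unfold BB
  fun_prop

/-- Cauchy-Schwarz for the limit term -/
lemma L0_le (u w ζ : ℂ → ℝ) (z : ℂ) :
    |L0 u w ζ z| ≤ 2 * (|ζ z| * |w z| * √(GG u w z) * √(g2 ζ z)) := by
  by_cases hU : u z = 0
  · have : L0 u w ζ z = 0 := by unfold L0; rw [hU]; simp
    rw [this, abs_zero]
    positivity
  · have hU' : 0 < |u z| := abs_pos.2 hU
    have e1 : √(GG u w z) = √(FF u w 1 z ^ 2 + FF u w I z ^ 2) / |u z| := by
      rw [GG_eq, Real.sqrt_div (by positivity), Real.sqrt_sq_eq_abs]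
    have cs : |FF u w 1 z * fderiv ℝ ζ z 1 + FF u w I z * fderiv ℝ ζ z I| ≤
        √(FF u w 1 z ^ 2 + FF u w I z ^ 2) * √(g2 ζ z) := by
      rw [← Real.sqrt_mul (by positivity)]
      refine Real.abs_le_sqrt ?_
      unfold g2
      nlinarith [sq_nonneg (FF u w 1 z * fderiv ℝ ζ z I - FF u w I z * fderiv ℝ ζ z 1)]
    have e2 : |L0 u w ζ z| = 2 * |ζ z| * (|w z| / |u z|) *
        |FF u w 1 z * fderiv ℝ ζ z 1 + FF u w I z * fderiv ℝ ζ z I| := by
      unfold L0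
      simp only [abs_mul, abs_div, abs_two]
    rw [e2, e1]
    calc 2 * |ζ z| * (|w z| / |u z|) * |FF u w 1 z * fderiv ℝ ζ z 1 + FF u w I z * fderiv ℝ ζ z I|
        ≤ 2 * |ζ z| * (|w z| / |u z|) * (√(FF u w 1 z ^ 2 + FF u w I z ^ 2) * √(g2 ζ z)) := by
          gcongr
      _ = _ := by ring

/-- E3a -/
theorem caccioppoli {u w : ℂ → ℝ} (hu : ContDiff ℝ ∞ u) (hw : ContDiff ℝ ∞ w)
    (eu : ∀ z, lap u z = - u z) (ew : ∀ z, lap w z = - w z) (h : ∀ z, |w z| ≤ |u z|)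
    {ζ : ℂ → ℝ} (hζ : ContDiff ℝ ∞ ζ) (hc : HasCompactSupport ζ) :
    ∫ z, ζ z ^ 2 * GG u w z ≤ 2 * ∫ z, |ζ z| * |w z| * √(GG u w z) * √(g2 ζ z) := by
  have mGG := GG_meas hu hw
  have cB := BB_cont hu hw
  have cg : Continuous (g2 ζ) := by
    have c1 := (smooth_fderiv hζ 1).continuous
    have c2 := (smooth_fderiv hζ I).continuous
    unfold g2
    fun_prop
  have i1 : Integrable (fun z => ζ z ^ 2 * GG u w z) := by
    have hb : Integrable (fun z => ζ z ^ 2 * BB u w z) := by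
      refine Continuous.integrable_of_hasCompactSupport ((hζ.continuous.pow 2).mul cB) ?_
      refine hc.mono fun z hz => ?_
      rw [Function.mem_support] at hz ⊢
      intro h
      apply hz
      simp [h]
    refine hb.mono ((hζ.continuous.measurable.pow_const 2).mul mGG).aestronglyMeasurable
      (Eventually.of_forall fun z => ?_)
    rw [Real.norm_eq_abs, Real.norm_eq_abs, abs_mul, abs_mul, abs_of_nonneg (GG_nonneg u w z)]
    exact mul_le_mul_of_nonneg_left ((GG_le h z).trans (le_abs_self _)) (abs_nonneg _)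
  have i2 : Integrable (fun z => |ζ z| * |w z| * √(GG u w z) * √(g2 ζ z)) := by
    have hb : Integrable (fun z => |ζ z| * |w z| * √(BB u w z) * √(g2 ζ z)) := by
      refine Continuous.integrable_of_hasCompactSupport
        (((hζ.continuous.abs.mul hw.continuous.abs).mul cB.sqrt).mul cg.sqrt) ?_
      refine hc.mono fun z hz => ?_
      rw [Function.mem_support] at hz ⊢
      intro h
      apply hz
      simp [h]
    refine hb.mono ((((hζ.continuous.abs.mul hw.continuous.abs).measurable).mul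
      mGG.sqrt).mul cg.measurable.sqrt).aestronglyMeasurable (Eventually.of_forall fun z => ?_)
    have p : ∀ G : ℝ, 0 ≤ |ζ z| * |w z| * √G * √(g2 ζ z) := fun _ => by positivity
    rw [Real.norm_eq_abs, Real.norm_eq_abs, abs_of_nonneg (p _), abs_of_nonneg (p _)]
    have := Real.sqrt_le_sqrt (GG_le h z)
    exact mul_le_mul_of_nonneg_right (mul_le_mul_of_nonneg_left this (by positivity))
      (Real.sqrt_nonneg _)
  have i3 : Integrable (L0 u w ζ) := by
    refine (i2.const_mul 2).mono ?_ (Eventually.of_forall fun z => ?_)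
    · have m1 := (smooth_FF hu hw 1).continuous.measurable
      have m2 := (smooth_FF hu hw I).continuous.measurable
      have m3 := (smooth_fderiv hζ 1).continuous.measurable
      have m4 := (smooth_fderiv hζ I).continuous.measurable
      have m5 := hζ.continuous.measurable
      exact (((m5.const_mul 2).mul (hw.continuous.measurable.div hu.continuous.measurable)).mul
        ((m1.mul m3).add (m2.mul m4))).aestronglyMeasurable
    · rw [Real.norm_eq_abs, Real.norm_eq_abs, abs_of_nonneg (a := 2 * _) (by positivity)]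
      exact L0_le u w ζ z
  have h0 := limit_zero hu hw eu ew h hζ hc
  rw [integral_add i1 i3] at h0
  have h1 : - ∫ z, L0 u w ζ z ≤ 2 * ∫ z, |ζ z| * |w z| * √(GG u w z) * √(g2 ζ z) := by
    rw [← integral_neg, ← integral_const_mul]
    refine integral_mono i3.neg (i2.const_mul 2) fun z => ?_
    exact (neg_le_abs _).trans (L0_le u w ζ z)
  linarith

end Pool.Agent.Helper80.Er
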